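import Mathlib
import Pool.Agent.Y91.PS.Point
import Pool.Agent.TH504.CB.Fr

/-!
# Families whose product is free at one point
-/

set_option linter.unusedSectionVars false

namespace Pool.Agent.Q43.VH

open Matrix Equiv Module Pool.Agent.H204R3.SP Pool.Agent.H204R3.CM Pool.Agent.H194R3.CM
  Pool.Agent.W437.HC Pool.Agent.W437.HD Pool.Agent.W437.HP Pool.Agent.W437.HR
  Pool.Agent.W548.Odd Pool.Agent.TH125.Small Pool.Agent.TH131.GHC Pool.Agent.TH504.VL
  Pool.Agent.W546.GHC Pool.Agent.TH504.VY Pool.Agent.TH504.CB Pool.Agent.Y91.PS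

noncomputable section

section prod

variable {K X : Type*} [CommRing K] [AddCommGroup X] [Module K X] {r k : ℕ}

theorem upd_eq (e : Fin r × Fin 2 ≃ Fin k) (m : Fin k → X) (l₀ : Fin r) (i₀ : Fin 2) (z : X) :
    (fun i => Function.update m (e (l₀, i₀)) z (e (l₀, i))) =
      Function.update (fun i => m (e (l₀, i))) i₀ z := by
  funext i
  by_cases hi : i = i₀
  · subst hi
    simp
  · rw [Function.update_of_ne hi, Function.update_of_ne]
    intro h
    exact hi (congrArg Prod.snd (e.injective h))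

theorem upd_ne (e : Fin r × Fin 2 ≃ Fin k) (m : Fin k → X) {l₀ l : Fin r} (h : l ≠ l₀)
    (i₀ : Fin 2) (z : X) :
    (fun i => Function.update m (e (l₀, i₀)) z (e (l, i))) = (fun i => m (e (l, i))) := by
  funext i
  rw [Function.update_of_ne]
  intro h'
  exact h (congrArg Prod.fst (e.injective h'))

/-- The product of bilinear forms. -/
def prodM (e : Fin r × Fin 2 ≃ Fin k) (ψ : Fin r → MultilinearMap K (fun _ : Fin 2 => X) K) :
    MultilinearMap K (fun _ : Fin k => X) K :=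
  MultilinearMap.mk' (fun w => ∏ l, ψ l (fun i => w (e (l, i))))
    (by
      intro m p x y
      obtain ⟨⟨l₀, i₀⟩, rfl⟩ := e.surjective p
      have h : ∀ z : X, ∏ l, ψ l (fun i => Function.update m (e (l₀, i₀)) z (e (l, i))) =
          ψ l₀ (Function.update (fun i => m (e (l₀, i))) i₀ z) *
            ∏ l ∈ Finset.univ.erase l₀, ψ l (fun i => m (e (l, i))) := by
        intro z
        rw [← Finset.mul_prod_erase Finset.univ _ (Finset.mem_univ l₀), upd_eq]
        congr 1
        refine Finset.prod_congr rfl fun l hl => ?_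
        rw [upd_ne e m (Finset.ne_of_mem_erase hl)]
      rw [h, h, h, MultilinearMap.map_update_add, add_mul])
    (by
      intro m p c x
      obtain ⟨⟨l₀, i₀⟩, rfl⟩ := e.surjective p
      have h : ∀ z : X, ∏ l, ψ l (fun i => Function.update m (e (l₀, i₀)) z (e (l, i))) =
          ψ l₀ (Function.update (fun i => m (e (l₀, i))) i₀ z) *
            ∏ l ∈ Finset.univ.erase l₀, ψ l (fun i => m (e (l, i))) := by
        intro z
        rw [← Finset.mul_prod_erase Finset.univ _ (Finset.mem_univ l₀), upd_eq]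
        congr 1
        refine Finset.prod_congr rfl fun l hl => ?_
        rw [upd_ne e m (Finset.ne_of_mem_erase hl)]
      rw [h, h, MultilinearMap.map_update_smul, smul_eq_mul, smul_eq_mul, mul_assoc])

theorem prodM_apply (e : Fin r × Fin 2 ≃ Fin k)
    (ψ : Fin r → MultilinearMap K (fun _ : Fin 2 => X) K) (w : Fin k → X) :
    prodM e ψ w = ∏ l, ψ l (fun i => w (e (l, i))) := rfl

end prod

/-- The products of divisor classes are Hodge classes. -/
theorem isHodge_gen {W T : Type} [AddCommGroup W] [Module ℚ W] [AddCommGroup T] [Module ℂ T]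
    {per : W →+ T} {r k : ℕ} (e : Fin r × Fin 2 ≃ Fin k) {C : Fin r → W [⋀^Fin 2]→ₗ[ℚ] ℚ}
    (hC : ∀ l, IsHodge per (C l)) {f : W [⋀^Fin k]→ₗ[ℚ] ℚ}
    (hf : ∀ w, f w = ∑ σ : Equiv.Perm (Fin k), (Equiv.Perm.sign σ : ℤ) *
      ∏ l, C l ![w (σ (e (l, 0))), w (σ (e (l, 1)))]) : IsHodge per f := by
  choose ψ h1 h2 using hC
  have h3 : f = MultilinearMap.alternatization (prodM e fun l => (C l).toMultilinearMap) := by
    ext w
    rw [hf, MultilinearMap.alternatization_apply]
    refine Finset.sum_congr rfl fun σ _ => ?_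
    rw [MultilinearMap.domDomCongr_apply, prodM_apply, Units.smul_def, zsmul_eq_mul]
    congr 1
    refine Finset.prod_congr rfl fun l _ => ?_
    change C l _ = C l _
    congr 1
    funext i
    fin_cases i <;> rfl
  rw [h3]
  refine isHodge_alt (prodM e ψ) (fun w => ?_) fun z hz u => ?_
  · rw [prodM_apply, prodM_apply, Rat.cast_prod]
    exact Finset.prod_congr rfl fun l _ => h1 l _
  · rw [prodM_apply, prodM_apply]
    exact Finset.prod_congr rfl fun l _ => h2 l z hz _

variable {n : ℕ} {g : Fin n → ℕ} {v : ℕ}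

theorem isH_of_span {Z : ∀ i, Matrix (Fin (g i)) (Fin (g i)) ℂ} (hpos : ∀ i, (imM (Z i)).PosDef)
    {k : ℕ} {f : (∀ i, Fin (g i) ⊕ Fin (g i) → ℚ) [⋀^Fin k]→ₗ[ℚ] ℚ}
    (hf : f ∈ divisorSpan (perProd Z) k) : IsH (DZ (bigD ℂ Z)) (cfE (EE g) f) := by
  have h1 : divisorSpan (perProd Z) k ≤ HH (EE g) (fun _ : Unit => DZ (bigD ℂ Z)) k := by
    refine Submodule.span_le.2 ?_
    rintro f ⟨r, e, C, hC, hf⟩ _
    exact isH_cf (frame1 Z hpos) (D := DZ (bigD ℂ Z)) rfl (isHodge_gen e hC hf) (fun _ => ())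
  exact h1 hf ()

theorem opW_of_span {Z : ∀ i, Matrix (Fin (g i)) (Fin (g i)) ℂ} {V : Coh v}
    (hpos : ∀ i, (imM (Z i)).PosDef) {F : HAZ (∀ i, Fin (g i) ⊕ Fin (g i) → ℚ) v}
    (hF : IsHodgeOnProduct (perProd Z) V F) (k : ℕ)
    (hd : ∀ b : Fin v, cmp b (F k) ∈ divisorSpan (perProd Z) k) :
    opW (Fin k) (Fin (NB g) ⊕ Fin (NB g)) V.z (cstX (cfP g (F k))) = 0 := by
  have h1 := total_zero hpos V hF k
  have h2 : opD (Fin k) (Fin v) (DZ (bigD ℂ Z)) (cstX (cfP g (F k))) = 0 := by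
    funext p
    obtain ⟨I, b⟩ := p
    have h3 : act (DZ (bigD ℂ Z)) (cst ℂ (cfE (EE g) (cmp b (F k)))) = 0 :=
      isH_of_span hpos (hd b)
    exact congrFun h3 I
  rwa [h2, zero_add] at h1

theorem value_of_opW {Z : ∀ i, Matrix (Fin (g i)) (Fin (g i)) ℂ} {V : Coh v}
    (hpos : ∀ i, (imM (Z i)).PosDef) {F : HAZ (∀ i, Fin (g i) ⊕ Fin (g i) → ℚ) v} {k : ℕ}
    (h1 : opW (Fin k) (Fin (NB g) ⊕ Fin (NB g)) V.z (cstX (cfP g (F k))) = 0)
    (w : Fin k → (∀ i, Fin (g i) ⊕ Fin (g i) → ℚ)) : F k w ∈ HY V := by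
  have h2 : ∀ I : Fin k → Fin (NB g) ⊕ Fin (NB g), F k (fun l => EE g (I l)) ∈ HY V := by
    intro I
    change V.z *ᵥ cv (F k (fun l => EE g (I l))) = 0
    funext b
    have h3 := congrFun h1 (I, b)
    rw [opW_apply] at h3
    exact h3
  have h3 : F k w = ∑ I : Fin k → Fin (NB g) ⊕ Fin (NB g), (∏ l, aP g (w l) (I l)) •
      F k (fun l => EE g (I l)) := by
    funext b
    have h4 := congrFun (expandP hpos (cmp b (F k))) w
    have h5 : (cmp b (F k)) w = F k w b := rfl
    rw [← h5]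
    refine h4.trans ?_
    rw [Frame.pf_apply, Finset.sum_apply]
    unfold evalF
    refine Finset.sum_congr rfl fun I _ => ?_
    rw [Pi.smul_apply, smul_eq_mul, mul_comm]
    rfl
  rw [h3]
  exact Submodule.sum_mem _ fun I _ => Submodule.smul_mem _ _ (h2 I)

variable {B : Type} {Z : ∀ i, B → Matrix (Fin (g i)) (Fin (g i)) ℂ} {Y : B → Coh v} {t : B}

/-- If all divisor classes of the abelian variety over `t` are divisor classes on all fibres, the
same is true for their products. -/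
theorem span_all {W T : Type} [AddCommGroup W] [Module ℚ W] [AddCommGroup T] [Module ℂ T]
    {per : B → W →+ T}
    (hgen : ∀ C : W [⋀^Fin 2]→ₗ[ℚ] ℚ, IsHodge (per t) C → ∀ b, IsHodge (per b) C)
    {k : ℕ} {f : W [⋀^Fin k]→ₗ[ℚ] ℚ} (hf : f ∈ divisorSpan (per t) k) (b : B) :
    f ∈ divisorSpan (per b) k := by
  refine (Submodule.span_mono ?_) hf
  rintro f ⟨r, e, C, hC, hf⟩
  exact ⟨r, e, C, fun l => hgen _ (hC l) b, hf⟩

theorem integral_all (hfree : IsFree (fun i => Z i t) (Y t))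
    (hpos : ∀ b i, (imM (Z i b)).PosDef)
    (hgen : ∀ C, IsHodge (κ := Fin 2) (perProd fun i => Z i t) C → ∀ b, IsHodge (perProd fun i => Z i b) C)
    {F : HAZ (∀ i, Fin (g i) ⊕ Fin (g i) → ℚ) v}
    (hF : ∀ b, IsHodgeOnProduct (perProd fun i => Z i b) (Y b) F) {k j : ℕ}
    (e : Basis (Fin k ⊕ Fin j) ℚ (∀ i, Fin (g i) ⊕ Fin (g i) → ℚ))
    (β : (∀ i, Fin (g i) ⊕ Fin (g i) → ℚ) [⋀^Fin j]→ₗ[ℚ] ℚ) (b : B) :
    fibreIntegral e F β ∈ HY (Y b) := by
  have hd : ∀ x : Fin v, cmp x (F k) ∈ divisorSpan (perProd fun i => Z i b) k := fun x =>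
    span_all (per := fun b => perProd fun i => Z i b) hgen
      (mem_span_point hfree.symm hfree.pos hfree.pcs (hfree.cmp_isH (hF t) k x)) b
  have hv : ∀ w, F k w ∈ HY (Y b) := value_of_opW (hpos b) (opW_of_span (hpos b) (hF b) k hd)
  unfold fibreIntegral
  refine Submodule.sum_mem _ fun σ _ => ?_
  have h1 : ∀ (z : ℤ) (x : Fin v → ℚ), x ∈ HY (Y b) → z • x ∈ HY (Y b) := fun z x hx =>
    zsmul_mem hx z
  exact h1 _ _ (Submodule.smul_mem _ _ (hv _))

/-- **Flat Hodge classes** on a family of products which is free at one point `t`, such that the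
divisor classes on the abelian variety over `t` are divisor classes on all fibres. -/
theorem products (hfree : IsFree (fun i => Z i t) (Y t))
    (hpos : ∀ b i, (imM (Z i b)).PosDef)
    (hgen : ∀ C, IsHodge (κ := Fin 2) (perProd fun i => Z i t) C → ∀ b, IsHodge (perProd fun i => Z i b) C) :
    HodgeClassesAreProducts (fun b => perProd fun i => Z i b) Y := by
  intro F hF
  refine hfree.mem_of_integrals (hF t) fun k j e f hf β hβ => ?_
  exact Submodule.subset_span ⟨k, f, _,
    span_all (per := fun b => perProd fun i => Z i b) hgen hf,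
    fun b => integral_all hfree hpos hgen hF e β b, rfl⟩

/-- **The variational Hodge conjecture.** -/
theorem variational (hfree : IsFree (fun i => Z i t) (Y t))
    (hpos : ∀ b i, (imM (Z i b)).PosDef)
    (hgen : ∀ C, IsHodge (κ := Fin 2) (perProd fun i => Z i t) C → ∀ b, IsHodge (perProd fun i => Z i b) C) :
    VariationalFromY (fun b => perProd fun i => Z i b) Y := by
  intro C hC F hF b₀ hb₀ b
  refine hfree.mem_of_integrals (hF t) fun k j e f hf β hβ => ?_
  have hs := fun {k : ℕ} {f : (∀ i, Fin (g i) ⊕ Fin (g i) → ℚ) [⋀^Fin k]→ₗ[ℚ] ℚ} hf b =>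
    span_all (per := fun b => perProd fun i => Z i b) (f := f) (k := k) (b := b) hgen hf
  refine C.cross_mem b k f (hs hf b) _ ?_
  refine hC _ (fun b' => integral_all hfree hpos hgen hF e β b') b₀ ?_ b
  exact C.integral_mem b₀ F hb₀ k j e β (hs hβ b₀)

end

end Pool.Agent.Q43.VH
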